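import Mathlib
import Pool.Agent.Lib_helper42.QI.Lower
import Pool.Agent.Lib_helper42.QI.Upper2

/-!
# The order of magnitude of `M_r(n)` for fixed `r`
-/

set_option autoImplicit false

namespace Pool.Agent.Results.MP_eaaa35_co.GrowthFixedR

/-- `F` is `r`-qualitatively independent: for any two distinct members `A`, `B` the four sets
`A ∩ B`, `A ∩ Bᶜ`, `Aᶜ ∩ B`, `Aᶜ ∩ Bᶜ` have at least `r` elements each. -/
def QualIndep {V : Type} [Fintype V] [DecidableEq V] (r : ℕ) (F : Finset (Finset V)) : Prop :=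
  ∀ A ∈ F, ∀ B ∈ F, A ≠ B →
    r ≤ (A ∩ B).card ∧ r ≤ (A ∩ Bᶜ).card ∧ r ≤ (Aᶜ ∩ B).card ∧ r ≤ (Aᶜ ∩ Bᶜ).card

/-- `M r n` is the largest size of an `r`-qualitatively independent family of subsets of an
`n`-element set. -/
noncomputable def M (r n : ℕ) : ℕ :=
  sSup {m | ∃ F : Finset (Finset (Fin n)), QualIndep r F ∧ F.card = m}

/-- **The order of magnitude of `M_r(n)` for fixed `r`**: explicit upper and lower bounds, valid
for all `r ≥ 1` and `n ≥ 4 r`, which for fixed `r` differ by a constant factor only. -/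
theorem result (r n : ℕ) (hr : 1 ≤ r) (hn : 4 * r ≤ n) :
    n.choose (n / 2) ≤ 4 ^ r * (2 * n) ^ (r - 1) * M r n ∧
    2 * n ^ (r - 1) * M r n ≤
      3 ^ (r - 1) * ((r / 2).factorial * ((r - 1) / 2).factorial) * n.choose (n / 2) := by
  have e : M r n = Pool.Agent.Lib_helper42.QI.maxQI r n := rfl
  rw [e]
  exact ⟨Pool.Agent.Lib_helper42.QI.lower_order hr hn,
    Pool.Agent.Lib_helper42.QI.upper_order2 hr hn⟩

end Pool.Agent.Results.MP_eaaa35_co.GrowthFixedR
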