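import Mathlib
import Pool.Agent.Lib_helper42.QI.Window

/-!
# `M_r(4 r + t)` for small `t`
-/

set_option autoImplicit false

namespace Pool.Agent.Results.MP_eaaa35_co.NearFourR

/-- `F` is `r`-qualitatively independent: for any two distinct members `A`, `B` the four sets
`A ∩ B`, `A ∩ Bᶜ`, `Aᶜ ∩ B`, `Aᶜ ∩ Bᶜ` have at least `r` elements each. -/
def QualIndep {V : Type} [Fintype V] [DecidableEq V] (r : ℕ) (F : Finset (Finset V)) : Prop :=
  ∀ A ∈ F, ∀ B ∈ F, A ≠ B →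
    r ≤ (A ∩ B).card ∧ r ≤ (A ∩ Bᶜ).card ∧ r ≤ (Aᶜ ∩ B).card ∧ r ≤ (Aᶜ ∩ Bᶜ).card

/-- `M r n` is the largest size of an `r`-qualitatively independent family of subsets of an
`n`-element set. -/
noncomputable def M (r n : ℕ) : ℕ :=
  sSup {m | ∃ F : Finset (Finset (Fin n)), QualIndep r F ∧ F.card = m}

/-- **Bounds for `M_r(n)`, `n = 4 r + t`**: an upper bound (of interest when `(n - 1) t ^ 2 < n ^ 2`)
and a lower bound from Hadamard matrices of orders `4 s` with `r ≤ s ≤ r + t / 3`. -/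
theorem result (r t : ℕ) (hr : 1 ≤ r) :
    ((M r (4 * r + t) : ℤ) * ((4 * r + t : ℤ) ^ 2 - ((4 * r + t : ℤ) - 1) * (t : ℤ) ^ 2) ≤
      ((4 * r + t : ℤ) - 1) * ((4 * r + t : ℤ) ^ 2 - (t : ℤ) ^ 2)) ∧
    (∀ s : ℕ, r ≤ s → 3 * (s - r) ≤ t →
      (∃ H : Matrix (Fin (4 * s)) (Fin (4 * s)) ℤ, H.IsHadamard) ∨ IsPrimePow (4 * s - 1) →
        4 * s - 1 ≤ M r (4 * r + t)) := by
  have e : ∀ n, M r n = Pool.Agent.Lib_helper42.QI.maxQI r n := fun _ => rfl
  simp only [e]
  constructor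
  · have h := Pool.Agent.Lib_helper42.QI.relative_upper (n := 4 * r + t) hr (by omega)
    push_cast at h
    have e1 : (4 * (r : ℤ) + t - 4 * r) = t := by ring
    rw [e1] at h
    exact h
  · intro s hs ht hH
    have hH' : ∃ H : Matrix (Fin (4 * s)) (Fin (4 * s)) ℤ, H.IsHadamard := by
      rcases hH with hH | hH
      · exact hH
      · exact Pool.Agent.Lib_helper42.QI.hadamard_of_maxQI (by omega)
          (Pool.Agent.Lib_helper42.QI.maxQI_of_isPrimePow (by omega) hH)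
    obtain ⟨H, hH⟩ := hH'
    exact Pool.Agent.Lib_helper42.QI.window_lower hr hs (by omega) H hH

end Pool.Agent.Results.MP_eaaa35_co.NearFourR
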