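import Mathlib
import Pool.Agent.Lib_helper42.QI.Small

/-!
# `M_r(n)` for `n ≤ 4 r + 1`
-/

set_option autoImplicit false

namespace Pool.Agent.Results.MP_eaaa35_co.SmallGroundSet

/-- `F` is `r`-qualitatively independent: for any two distinct members `A`, `B` the four sets
`A ∩ B`, `A ∩ Bᶜ`, `Aᶜ ∩ B`, `Aᶜ ∩ Bᶜ` have at least `r` elements each. -/
def QualIndep {V : Type} [Fintype V] [DecidableEq V] (r : ℕ) (F : Finset (Finset V)) : Prop :=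
  ∀ A ∈ F, ∀ B ∈ F, A ≠ B →
    r ≤ (A ∩ B).card ∧ r ≤ (A ∩ Bᶜ).card ∧ r ≤ (Aᶜ ∩ B).card ∧ r ≤ (Aᶜ ∩ Bᶜ).card

/-- `M r n` is the largest size of an `r`-qualitatively independent family of subsets of an
`n`-element set. -/
noncomputable def M (r n : ℕ) : ℕ :=
  sSup {m | ∃ F : Finset (Finset (Fin n)), QualIndep r F ∧ F.card = m}

/-- `H` is a square matrix with entries `± 1` in which any two distinct rows have inner product
`1`. -/
def IsOneMatrix {N : ℕ} (H : Matrix (Fin N) (Fin N) ℤ) : Prop :=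
  (∀ i j, H i j = 1 ∨ H i j = -1) ∧ ∀ i k, i ≠ k → ∑ j, H i j * H k j = 1

/-- **`M_r(n)` for `n ≤ 4 r + 1`.** -/
theorem result (r : ℕ) (hr : 1 ≤ r) :
    (∀ n < 4 * r, M r n = 1) ∧
    (M r (4 * r) ≤ 4 * r - 1 ∧
      (M r (4 * r) = 4 * r - 1 ↔
        ∃ H : Matrix (Fin (4 * r)) (Fin (4 * r)) ℤ, H.IsHadamard)) ∧
    (M r (4 * r + 1) ≤ 4 * r ∧
      (M r (4 * r + 1) = 4 * r ↔
        ∃ H : Matrix (Fin (4 * r + 1)) (Fin (4 * r + 1)) ℤ, IsOneMatrix H) ∧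
      (¬ IsSquare (8 * r + 1) → M r (4 * r + 1) ≤ 4 * r - 1)) ∧
    (IsPrimePow (4 * r - 1) → M r (4 * r) = 4 * r - 1 ∧
      (¬ IsSquare (8 * r + 1) → M r (4 * r + 1) = 4 * r - 1)) := by
  have e : ∀ n, M r n = Pool.Agent.Lib_helper42.QI.maxQI r n := fun _ => rfl
  simp only [e]
  refine ⟨fun n hn => Pool.Agent.Lib_helper42.QI.maxQI_of_lt hn,
    ⟨Pool.Agent.Lib_helper42.QI.maxQI_four_mul_le hr,
      Pool.Agent.Lib_helper42.QI.hadamard_of_maxQI hr, ?_⟩,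
    ⟨Pool.Agent.Lib_helper42.QI.maxQI_four_mul_add_one_le hr, ⟨?_, ?_⟩,
      Pool.Agent.Lib_helper42.QI.maxQI_add_one_of_not_isSquare hr⟩, ?_⟩
  · rintro ⟨H, hH⟩
    exact Pool.Agent.Lib_helper42.QI.maxQI_of_hadamard hr H hH
  · intro h
    obtain ⟨H, h1, h2⟩ := Pool.Agent.Lib_helper42.QI.barba_of_maxQI hr h
    refine ⟨H, h1, fun i k hik => ?_⟩
    rw [h2 i k, if_neg hik]
  · rintro ⟨H, h1, h2⟩
    exact Pool.Agent.Lib_helper42.QI.maxQI_of_barba hr H h1 h2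
  · intro hp
    have h1 := Pool.Agent.Lib_helper42.QI.maxQI_of_isPrimePow hr hp
    refine ⟨h1, fun hns => le_antisymm
      (Pool.Agent.Lib_helper42.QI.maxQI_add_one_of_not_isSquare hr hns) ?_⟩
    rw [← h1]
    exact Pool.Agent.Lib_helper42.QI.maxQI_mono hr (Nat.le_succ _)

end Pool.Agent.Results.MP_eaaa35_co.SmallGroundSet
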