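import Mathlib
import Pool.Agent.Lib_helper42.QI.Steiner
import Pool.Agent.Lib_helper42.QI.Twelve

/-!
# An upper bound for `M_r(n)` and its case of equality for `r = 2`
-/

set_option autoImplicit false

namespace Pool.Agent.Results.MP_eaaa35_co.SphereTypeBound

/-- `F` is `r`-qualitatively independent: for any two distinct members `A`, `B` the four sets
`A ∩ B`, `A ∩ Bᶜ`, `Aᶜ ∩ B`, `Aᶜ ∩ Bᶜ` have at least `r` elements each. -/
def QualIndep {V : Type} [Fintype V] [DecidableEq V] (r : ℕ) (F : Finset (Finset V)) : Prop :=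
  ∀ A ∈ F, ∀ B ∈ F, A ≠ B →
    r ≤ (A ∩ B).card ∧ r ≤ (A ∩ Bᶜ).card ∧ r ≤ (Aᶜ ∩ B).card ∧ r ≤ (Aᶜ ∩ Bᶜ).card

/-- `M r n` is the largest size of an `r`-qualitatively independent family of subsets of an
`n`-element set. -/
noncomputable def M (r n : ℕ) : ℕ :=
  sSup {m | ∃ F : Finset (Finset (Fin n)), QualIndep r F ∧ F.card = m}

/-- A Steiner system `S(k - 1, k, 2 k)`: a family of `k`-subsets of a `2 k`-set such that every
`(k - 1)`-subset lies in exactly one member. -/
def IsSteinerSystem (k : ℕ) (S : Finset (Finset (Fin (2 * k)))) : Prop :=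
  (∀ X ∈ S, X.card = k) ∧
    ∀ T : Finset (Fin (2 * k)), T.card = k - 1 → ∃! X, X ∈ S ∧ T ⊆ X

/-- **An upper bound for `M_r(n)`**, the case of equality for `r = 2` and even `n`, and the exact
value `M_2(12) = 66`. -/
theorem result :
    (∀ r n : ℕ, 1 ≤ r → 4 * r ≤ n →
      2 * (((n + 1) / 2).choose (r / 2) * (n / 2).choose ((r - 1) / 2)) * M r n ≤
        n.choose ((n + 1) / 2 - r / 2 + (r - 1) / 2)) ∧
    (∀ k : ℕ, 4 ≤ k → (2 * k * M 2 (2 * k) = (2 * k).choose (k - 1) ↔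
      ∃ S : Finset (Finset (Fin (2 * k))), IsSteinerSystem k S)) ∧
    M 2 12 = 66 := by
  have e : ∀ r n, M r n = Pool.Agent.Lib_helper42.QI.maxQI r n := fun _ _ => rfl
  simp only [e]
  exact ⟨fun r n hr hn => Pool.Agent.Lib_helper42.QI.upper_bound2 hr hn,
    fun k hk => Pool.Agent.Lib_helper42.QI.eq_iff_steiner hk,
    Pool.Agent.Lib_helper42.QI.maxQI_two_twelve⟩

end Pool.Agent.Results.MP_eaaa35_co.SphereTypeBound
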